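import Mathlib

/-! Definitions: quantum ground-state energy and Thomas-Fermi energy of a molecule
(units with hbar^2/(2m) = 1, e = 1). -/

open MeasureTheory
open scoped ContDiff

namespace Pool.Agent.Lib.MP_f7be6d_mp

/-- Physical space. -/
abbrev E3 : Type := EuclideanSpace ℝ (Fin 3)

/-- Nuclear attraction potential V(x) = sum_j z_j / |x - R_j|. -/
noncomputable def nucV {k : ℕ} (z : Fin k → ℝ) (R : Fin k → E3) (x : E3) : ℝ :=
  ∑ j, z j / ‖x - R j‖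

/-- Nuclear repulsion U = sum_{i<j} z_i z_j / |R_i - R_j|. -/
noncomputable def nucU {k : ℕ} (z : Fin k → ℝ) (R : Fin k → E3) : ℝ :=
  ∑ i, ∑ j with i < j, z i * z j / ‖R i - R j‖

/-- Normalised antisymmetric test wave functions of N spin-1/2 particles:
psi(x, s) with positions x_1..x_N and spins s_1..s_N, smooth and compactly supported in x. -/
structure IsTestState {N : ℕ} (ψ : (Fin N → E3) → (Fin N → Fin 2) → ℂ) : Prop where
  smooth : ∀ s, ContDiff ℝ ∞ (fun x => ψ x s)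
  compact : ∀ s, HasCompactSupport (fun x => ψ x s)
  antisymm : ∀ (π : Equiv.Perm (Fin N)) (x : Fin N → E3) (s : Fin N → Fin 2),
    ψ (x ∘ π) (s ∘ π) = ((Equiv.Perm.sign π : ℤ) : ℂ) * ψ x s
  normalised : ∑ s, ∫ x, ‖ψ x s‖ ^ 2 = 1

/-- The quadratic form (psi, H_N psi) of
H_N = sum_i (-Laplace_i - V(x_i)) + sum_{i<j} 1/|x_i - x_j| + U. -/
noncomputable def quantumForm {N k : ℕ} (z : Fin k → ℝ) (R : Fin k → E3)
    (ψ : (Fin N → E3) → (Fin N → Fin 2) → ℂ) : ℝ :=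
  ∑ s, ∫ x : Fin N → E3,
    ((∑ i, ∑ a : Fin 3,
        ‖fderiv ℝ (fun y => ψ y s) x (Pi.single i (EuclideanSpace.single a (1 : ℝ)))‖ ^ 2)
      + (-(∑ i, nucV z R (x i)) + (∑ i, ∑ j with i < j, 1 / ‖x i - x j‖) + nucU z R)
        * ‖ψ x s‖ ^ 2)

/-- E^Q: the infimum of the quadratic form of H_N over normalised antisymmetric test states. -/
noncomputable def quantumEnergy (N : ℕ) {k : ℕ} (z : Fin k → ℝ) (R : Fin k → E3) : EReal :=
  ⨅ ψ : {ψ : (Fin N → E3) → (Fin N → Fin 2) → ℂ // IsTestState ψ},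
    ((quantumForm z R ψ.1 : ℝ) : EReal)

/-- Admissible Thomas-Fermi densities: rho >= 0, rho in L^{5/3} and L^1, integral at most N. -/
structure IsTFDensity (N : ℕ) (ρ : E3 → ℝ) : Prop where
  nonneg : ∀ x, 0 ≤ ρ x
  memL53 : MemLp ρ (5 / 3) volume
  memL1 : Integrable ρ volume
  mass : ∫ x, ρ x ≤ N

/-- The Thomas-Fermi functional gamma int rho^{5/3} - int V rho + D(rho,rho) + U
with gamma = (3/5)(3 pi^2)^{2/3}. -/
noncomputable def tfFunctional {k : ℕ} (z : Fin k → ℝ) (R : Fin k → E3) (ρ : E3 → ℝ) : ℝ :=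
  3 / 5 * (3 * Real.pi ^ 2) ^ (2 / 3 : ℝ) * (∫ x, ρ x ^ (5 / 3 : ℝ))
    - (∫ x, nucV z R x * ρ x)
    + 1 / 2 * (∫ x, ∫ y, ρ x * ρ y / ‖x - y‖)
    + nucU z R

/-- E^TF: the infimum of the Thomas-Fermi functional over admissible densities. -/
noncomputable def tfEnergy (N : ℕ) {k : ℕ} (z : Fin k → ℝ) (R : Fin k → E3) : EReal :=
  ⨅ ρ : {ρ : E3 → ℝ // IsTFDensity N ρ}, ((tfFunctional z R ρ.1 : ℝ) : EReal)

end Pool.Agent.Lib.MP_f7be6d_mp
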