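import Pool.Agent.Lib.MP_f7be6d_mp.Defs

open MeasureTheory Metric Set
open scoped ContDiff

namespace Pool.Agent.Lib.MP_f7be6d_mp

abbrev X1 : Type := Fin 1 → E3

lemma finrank_X1 : Module.finrank ℝ X1 = 3 := by
  simp [Module.finrank_pi_fintype]

noncomputable def ctr : X1 := fun _ => EuclideanSpace.single 0 2

noncomputable def bump : ContDiffBump ctr := ⟨1 / 2, 1, by norm_num, by norm_num⟩

lemma bump_far {x : X1} (hx : x ∈ tsupport bump) : 1 ≤ ‖x 0‖ := by
  rw [bump.tsupport_eq] at hx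
  have h1 : ‖x - ctr‖ ≤ 1 := by simpa [bump, mem_closedBall, dist_eq_norm] using hx
  have h2 : ‖(x - ctr) 0‖ ≤ ‖x - ctr‖ := norm_le_pi_norm _ _
  have h3 : ‖ctr 0‖ = 2 := by simp [ctr]
  have h4 : ‖ctr 0‖ ≤ ‖x 0‖ + ‖(x - ctr) 0‖ := by
    have := norm_sub_le (x 0) ((x - ctr) 0)
    simpa using this
  linarith

lemma exists_profile : ∃ f : X1 → ℂ, ContDiff ℝ ∞ f ∧ HasCompactSupport f ∧
    ∫ x, ‖f x‖ ^ 2 = 1 ∧ Integrable (fun x => ‖f x‖ ^ 2 / ‖x 0‖) ∧
    0 < ∫ x, ‖f x‖ ^ 2 / ‖x 0‖ := by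
  have hc : Continuous bump := bump.continuous
  have hs : HasCompactSupport bump := bump.hasCompactSupport
  have hsq : HasCompactSupport (fun x => bump x ^ 2) :=
    hs.comp_left (g := fun t : ℝ => t ^ 2) (by simp)
  have hA : 0 < ∫ x, bump x ^ 2 := by
    refine Continuous.integral_pos_of_hasCompactSupport_nonneg_nonzero (x := ctr) (by fun_prop) hsq
      (fun x => by positivity) ?_
    have : bump ctr = 1 := bump.one_of_mem_closedBall (mem_closedBall_self bump.rIn_pos.le)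
    simp [this]
  set A := ∫ x, bump x ^ 2 with hAdef
  have hcont : Continuous (fun x : X1 => bump x ^ 2 / ‖x 0‖) := by
    refine continuous_iff_continuousAt.2 fun x => ?_
    by_cases hx : x ∈ tsupport bump
    · have := bump_far hx
      exact ContinuousAt.div (by fun_prop) ((continuous_apply 0).norm.continuousAt) (by linarith)
    · have hev : (fun x : X1 => bump x ^ 2 / ‖x 0‖) =ᶠ[nhds x] fun _ => 0 := by
        filter_upwards [notMem_tsupport_iff_eventuallyEq.1 hx] with y hy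
        simp [hy]
      exact continuousAt_const.congr hev.symm
  have hsupp : HasCompactSupport (fun x : X1 => bump x ^ 2 / ‖x 0‖) := by
    refine hs.mono ?_
    intro x hx
    simp only [Function.mem_support] at hx ⊢
    intro h0
    exact hx (by simp [h0])
  have hW : 0 < ∫ x : X1, bump x ^ 2 / ‖x 0‖ := by
    refine Continuous.integral_pos_of_hasCompactSupport_nonneg_nonzero (x := ctr) hcont hsupp
      (fun x => by positivity) ?_
    have : bump ctr = 1 := bump.one_of_mem_closedBall (mem_closedBall_self bump.rIn_pos.le)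
    simp [this, ctr]
  have hn : ∀ x, ‖(((√A)⁻¹ * bump x : ℝ) : ℂ)‖ ^ 2 = A⁻¹ * bump x ^ 2 := by
    intro x
    rw [Complex.norm_real, Real.norm_eq_abs, sq_abs, mul_pow, inv_pow, Real.sq_sqrt hA.le]
  refine ⟨fun x => (((√A)⁻¹ * bump x : ℝ) : ℂ), ?_, ?_, ?_, ?_, ?_⟩
  · exact Complex.ofRealCLM.contDiff.comp (contDiff_const.mul bump.contDiff)
  · exact hs.comp_left (g := fun t : ℝ => (((√A)⁻¹ * t : ℝ) : ℂ)) (by simp)
  · simp_rw [hn]
    rw [integral_const_mul, ← hAdef, inv_mul_cancel₀ hA.ne']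
  · simp_rw [hn, mul_div_assoc]
    exact (hcont.integrable_of_hasCompactSupport hsupp).const_mul _
  · simp_rw [hn, mul_div_assoc]
    rw [integral_const_mul]
    positivity

/-- scaled trial state -/
noncomputable def trial (f : X1 → ℂ) (μ : ℝ) (x : X1) (s : Fin 1 → Fin 2) : ℂ :=
  if s = 0 then ((μ ^ 3 : ℝ) : ℂ) * f (μ ^ 2 • x) else 0

lemma trial_isTest {f : X1 → ℂ} (hf : ContDiff ℝ ∞ f) (hs : HasCompactSupport f)
    (hn : ∫ x, ‖f x‖ ^ 2 = 1) {μ : ℝ} (hμ : 0 < μ) : IsTestState (trial f μ) where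
  smooth s := by
    unfold trial
    split_ifs
    · exact contDiff_const.mul (hf.comp (contDiff_id.const_smul _))
    · exact contDiff_const
  compact s := by
    unfold trial
    split_ifs
    · exact (hs.comp_smul (by positivity)).mul_left
    · exact HasCompactSupport.zero
  antisymm π x s := by
    obtain rfl : π = 1 := Subsingleton.elim _ _
    simp
  normalised := by
    rw [Finset.sum_eq_single (0 : Fin 1 → Fin 2)]
    · have : ∀ x, ‖trial f μ x 0‖ ^ 2 = μ ^ 6 * ‖f (μ ^ 2 • x)‖ ^ 2 := by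
        intro x
        simp only [trial, if_true, norm_mul, Complex.norm_real, Real.norm_eq_abs, mul_pow, sq_abs]
        ring
      simp_rw [this]
      rw [integral_const_mul, Measure.integral_comp_smul_of_nonneg volume
        (fun x => ‖f x‖ ^ 2) (μ ^ 2) (hR := by positivity), finrank_X1, hn]
      simp only [smul_eq_mul]
      field_simp
    · intro s _ hs0
      simp [trial, hs0]
    · simp

lemma trial_energy {f : X1 → ℂ} (hf : ContDiff ℝ ∞ f) (hs : HasCompactSupport f)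
    (hW : Integrable (fun x => ‖f x‖ ^ 2 / ‖x 0‖)) {μ : ℝ} (hμ : 0 < μ) (z : ℝ) :
    quantumForm (fun _ : Fin 1 => z) (fun _ => 0) (trial f μ)
      = μ ^ 4 * (∫ x, ∑ a : Fin 3,
          ‖fderiv ℝ f x (Pi.single 0 (EuclideanSpace.single a (1 : ℝ)))‖ ^ 2)
        - z * μ ^ 2 * ∫ x, ‖f x‖ ^ 2 / ‖x 0‖ := by
  set Kf : X1 → ℝ := fun x => ∑ a : Fin 3,
    ‖fderiv ℝ f x (Pi.single 0 (EuclideanSpace.single a (1 : ℝ)))‖ ^ 2 with hKf
  have hKi : Integrable Kf := by
    refine integrable_finsetSum _ fun a _ => ?_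
    have hc : Continuous (fderiv ℝ f) := hf.continuous_fderiv (by simp)
    refine Continuous.integrable_of_hasCompactSupport (by fun_prop) ?_
    exact (hs.fderiv_apply ℝ _).comp_left (g := fun t : ℂ => ‖t‖ ^ 2) (by simp)
  have hV : ∀ x, nucV (fun _ : Fin 1 => z) (fun _ => (0 : E3)) x = z / ‖x‖ := by
    intro x; simp [nucV]
  have hU : nucU (fun _ : Fin 1 => z) (fun _ => (0 : E3)) = 0 := by
    simp [nucU]
  have hd : ∀ (x v : X1), fderiv ℝ (fun y => trial f μ y 0) x v
      = ((μ ^ 5 : ℝ) : ℂ) * fderiv ℝ f (μ ^ 2 • x) v := by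
    intro x v
    have h1 : HasFDerivAt f (fderiv ℝ f (μ ^ 2 • x)) (μ ^ 2 • x) :=
      (hf.differentiable (by simp) _).hasFDerivAt
    have h2 : HasFDerivAt (fun y : X1 => μ ^ 2 • y) (μ ^ 2 • ContinuousLinearMap.id ℝ X1) x :=
      (hasFDerivAt_id x).const_smul (μ ^ 2)
    have h3 := (h1.comp x h2).const_mul ((μ ^ 3 : ℝ) : ℂ)
    have e : (fun y => trial f μ y 0)
        = fun y => ((μ ^ 3 : ℝ) : ℂ) * (f ∘ fun y : X1 => μ ^ 2 • y) y := by
      funext y; simp [trial]
    rw [e, h3.fderiv]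
    simp
    ring
  unfold quantumForm
  rw [Finset.sum_eq_single (0 : Fin 1 → Fin 2)]
  · set G : X1 → ℝ := fun y => μ ^ 10 * Kf y - z * μ ^ 8 * (‖f y‖ ^ 2 / ‖y 0‖) with hG
    have e : ∀ x : X1, ((∑ i : Fin 1, ∑ a : Fin 3,
        ‖fderiv ℝ (fun y => trial f μ y 0) x (Pi.single i (EuclideanSpace.single a (1 : ℝ)))‖ ^ 2)
      + (-(∑ i : Fin 1, nucV (fun _ : Fin 1 => z) (fun _ => 0) (x i))
        + (∑ i : Fin 1, ∑ j with i < j, 1 / ‖x i - x j‖)
        + nucU (fun _ : Fin 1 => z) (fun _ => 0)) * ‖trial f μ x 0‖ ^ 2) = G (μ ^ 2 • x) := by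
      intro x
      have hn : ‖(μ ^ 2 • x) 0‖ = μ ^ 2 * ‖x 0‖ := by
        rw [Pi.smul_apply, norm_smul, Real.norm_of_nonneg (by positivity)]
      have h0 : (∑ i : Fin 1, ∑ j with i < j, 1 / ‖x i - x j‖) = 0 := by
        refine Finset.sum_eq_zero fun i _ => Finset.sum_eq_zero fun j hj => ?_
        exact absurd (Finset.mem_filter.1 hj).2 (by rw [Subsingleton.elim i j]; simp)
      rw [h0]
      simp only [hd]
      simp only [hV, hU, hG, hKf, hn, Fin.sum_univ_one, trial, if_true, norm_mul,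
        Complex.norm_real, Real.norm_eq_abs, mul_pow, sq_abs, ← Finset.mul_sum]
      by_cases hx : ‖x 0‖ = 0
      · simp only [hx, div_zero, mul_zero]; ring
      · field_simp; ring
    simp_rw [e]
    rw [Measure.integral_comp_smul_of_nonneg volume G (μ ^ 2) (hR := by positivity), finrank_X1,
      hG, integral_sub (hKi.const_mul _) (hW.const_mul _), integral_const_mul, integral_const_mul]
    simp only [smul_eq_mul]
    field_simp
  · intro s _ hs0
    simp [trial, hs0]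
  · simp

/-- One electron bound to one nucleus of charge z has energy at most -c z^2. -/
lemma quantum_upper : ∃ c : ℝ, 0 < c ∧ ∀ z : ℝ, 0 < z →
    quantumEnergy 1 (fun _ : Fin 1 => z) (fun _ => 0) ≤ ((-(c * z ^ 2) : ℝ) : EReal) := by
  obtain ⟨f, hf, hs, hn, hWi, hW⟩ := exists_profile
  set W := ∫ x, ‖f x‖ ^ 2 / ‖x 0‖ with hWd
  set T := ∫ x, ∑ a : Fin 3,
    ‖fderiv ℝ f x (Pi.single 0 (EuclideanSpace.single a (1 : ℝ)))‖ ^ 2 with hTd
  have hT : 0 ≤ T := integral_nonneg fun x => Finset.sum_nonneg fun a _ => by positivity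
  refine ⟨W ^ 2 / (4 * (T + 1)), by positivity, fun z hz => ?_⟩
  set l := z * W / (2 * (T + 1)) with hl
  have hlpos : 0 < l := by positivity
  have hμ : 0 < √l := Real.sqrt_pos.2 hlpos
  refine iInf_le_of_le ⟨trial f (√l), trial_isTest hf hs hn hμ⟩ ?_
  rw [EReal.coe_le_coe_iff]
  simp only
  rw [trial_energy hf hs hWi hμ z, ← hWd, ← hTd]
  have h2 : √l ^ 2 = l := Real.sq_sqrt hlpos.le
  have h4 : √l ^ 4 = l ^ 2 := by rw [← h2]; simp only [h2]; nlinarith [h2]
  rw [h4, h2]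
  have e : l ^ 2 * (T + 1) - z * l * W = -(W ^ 2 / (4 * (T + 1)) * z ^ 2) := by
    rw [hl]; field_simp; ring
  nlinarith [sq_nonneg l]

end Pool.Agent.Lib.MP_f7be6d_mp
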