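import Pool.Agent.Lib.MP_f7be6d_mp.Defs

open MeasureTheory Metric Set

namespace Pool.Agent.Lib.MP_f7be6d_mp

/-- truncated singular weight -/
noncomputable def hsing (r : ℝ) (y : E3) : ℝ := (ball (0 : E3) r).indicator (fun y => ‖y‖ ^ (-(5 / 2 : ℝ))) y

lemma hsing_nonneg (r : ℝ) (y : E3) : 0 ≤ hsing r y :=
  indicator_nonneg (fun _ _ => Real.rpow_nonneg (norm_nonneg _) _) _

lemma finrank_E3 : Module.finrank ℝ E3 = 3 := by simp

lemma integrable_hsing (r : ℝ) : Integrable (hsing r) := by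
  unfold hsing
  rw [integrable_indicator_iff measurableSet_ball]
  refine integrableOn_ball_of_norm_le_rpow (C := 1) (α := 5 / 2) ?_ ?_ ?_ ?_
  · rw [finrank_E3]; norm_num
  · rw [finrank_E3]; norm_num
  · refine Filter.Eventually.of_forall fun x => ?_
    rw [Real.norm_of_nonneg (Real.rpow_nonneg (norm_nonneg _) _), one_mul]
  · exact (measurable_norm.pow_const _).aestronglyMeasurable

noncomputable def Ione : ℝ := ∫ y, hsing 1 y

lemma Ione_nonneg : 0 ≤ Ione := integral_nonneg fun y => hsing_nonneg 1 y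

lemma integral_hsing {r : ℝ} (hr : 0 < r) : ∫ y, hsing r y = r ^ (1 / 2 : ℝ) * Ione := by
  have h1 : ∀ y : E3, hsing r y = r ^ (-(5 / 2 : ℝ)) * hsing 1 (r⁻¹ • y) := by
    intro y
    unfold hsing
    by_cases hy : y ∈ ball (0 : E3) r
    · have hy' : r⁻¹ • y ∈ ball (0 : E3) 1 := by
        rw [mem_ball_zero_iff] at hy ⊢
        rw [norm_smul, Real.norm_of_nonneg (inv_nonneg.2 hr.le), inv_mul_lt_iff₀ hr]
        simpa using hy
      rw [indicator_of_mem hy, indicator_of_mem hy', norm_smul,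
        Real.norm_of_nonneg (inv_nonneg.2 hr.le), ← Real.mul_rpow hr.le (by positivity)]
      congr 1
      field_simp
    · have hy' : r⁻¹ • y ∉ ball (0 : E3) 1 := by
        rw [mem_ball_zero_iff] at hy ⊢
        rw [norm_smul, Real.norm_of_nonneg (inv_nonneg.2 hr.le), inv_mul_lt_iff₀ hr]
        simpa using hy
      rw [indicator_of_notMem hy, indicator_of_notMem hy', mul_zero]
  simp_rw [h1]
  rw [integral_const_mul, Measure.integral_comp_inv_smul_of_nonneg volume (hsing 1) hr.le,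
    finrank_E3, smul_eq_mul, ← mul_assoc]
  congr 1
  rw [← Real.rpow_natCast, ← Real.rpow_add hr]
  norm_num

lemma young53 {a b : ℝ} (ha : 0 ≤ a) (hb : 0 ≤ b) :
    a * b ≤ 3 / 5 * a ^ (5 / 3 : ℝ) + 2 / 5 * b ^ (5 / 2 : ℝ) := by
  have hpq : (5 / 3 : ℝ).HolderConjugate (5 / 2) := by
    rw [Real.holderConjugate_iff]; norm_num
  have := Real.young_inequality_of_nonneg ha hb hpq
  linarith

/-- pointwise bound inside the ball -/
lemma coulomb_pointwise {c r t : ℝ} (hc : 0 ≤ c) (ht : 0 ≤ t) (y : E3)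
    (hy : ‖y‖ < r) :
    c / ‖y‖ * t ≤ 3 / 5 * t ^ (5 / 3 : ℝ) + 2 / 5 * (c ^ (5 / 2 : ℝ) * hsing r y) := by
  have hy' : y ∈ ball (0 : E3) r := mem_ball_zero_iff.2 hy
  unfold hsing
  rw [indicator_of_mem hy', Real.rpow_neg (norm_nonneg _), ← div_eq_mul_inv,
    ← Real.div_rpow hc (norm_nonneg _), mul_comm]
  exact young53 ht (by positivity)

variable {N : ℕ} {ρ : E3 → ℝ}

lemma IsTFDensity.integrable_rpow (h : IsTFDensity N ρ) :
    Integrable (fun x => ρ x ^ (5 / 3 : ℝ)) := by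
  have := h.memL53.integrable_norm_rpow (by norm_num) (by
    exact ENNReal.div_ne_top (by norm_num) (by norm_num))
  have e : (5 / 3 : ENNReal).toReal = 5 / 3 := by
    rw [ENNReal.toReal_div]; norm_num
  rw [e] at this
  refine this.congr (Filter.Eventually.of_forall fun x => ?_)
  simp only [Real.norm_of_nonneg (h.nonneg x)]

lemma coulomb_bound (h : IsTFDensity N ρ) (x y : E3) :
    ρ y / ‖x - y‖ ≤ 3 / 5 * ρ y ^ (5 / 3 : ℝ) + 2 / 5 * hsing 1 (x - y) + ρ y := by
  have hρ := h.nonneg y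
  by_cases hy : ‖x - y‖ < 1
  · have := coulomb_pointwise (c := 1) (r := 1) zero_le_one hρ (x - y) hy
    rw [Real.one_rpow, one_mul] at this
    have e : ρ y / ‖x - y‖ = 1 / ‖x - y‖ * ρ y := by ring
    rw [e]; linarith
  · have h1 : ρ y / ‖x - y‖ ≤ ρ y := div_le_self hρ (not_lt.1 hy)
    have h2 := hsing_nonneg 1 (x - y)
    have h3 : 0 ≤ ρ y ^ (5 / 3 : ℝ) := Real.rpow_nonneg hρ _
    linarith

lemma integrable_coulomb_major (h : IsTFDensity N ρ) (x : E3) :
    Integrable (fun y => 3 / 5 * ρ y ^ (5 / 3 : ℝ) + 2 / 5 * hsing 1 (x - y) + ρ y) :=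
  ((h.integrable_rpow.const_mul _).add
    (((integrable_hsing 1).comp_sub_left x).const_mul _)).add h.memL1

lemma integrable_coulomb (h : IsTFDensity N ρ) (x : E3) :
    Integrable (fun y => ρ y / ‖x - y‖) := by
  refine (integrable_coulomb_major h x).mono' ?_ (Filter.Eventually.of_forall fun y => ?_)
  · exact (h.memL1.aemeasurable.div (by fun_prop)).aestronglyMeasurable
  · rw [Real.norm_of_nonneg (div_nonneg (h.nonneg y) (norm_nonneg _))]
    exact coulomb_bound h x y

lemma coulomb_potential_le (h : IsTFDensity N ρ) (x : E3) :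
    ∫ y, ρ y / ‖x - y‖ ≤ 3 / 5 * (∫ y, ρ y ^ (5 / 3 : ℝ)) + 2 / 5 * Ione + ∫ y, ρ y := by
  have h1 := integral_mono (integrable_coulomb h x) (integrable_coulomb_major h x)
    (fun y => coulomb_bound h x y)
  rw [integral_add, integral_add, integral_const_mul, integral_const_mul,
    integral_sub_left_eq_self (hsing 1) volume x] at h1
  · exact h1
  · exact h.integrable_rpow.const_mul _
  · exact ((integrable_hsing 1).comp_sub_left x).const_mul _
  · exact (h.integrable_rpow.const_mul _).add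
      (((integrable_hsing 1).comp_sub_left x).const_mul _)
  · exact h.memL1

lemma integrable_direct (h : IsTFDensity N ρ) :
    Integrable (fun x => ∫ y, ρ x * ρ y / ‖x - y‖) := by
  have e : (fun x => ∫ y, ρ x * ρ y / ‖x - y‖) = fun x => ρ x * ∫ y, ρ y / ‖x - y‖ := by
    funext x
    rw [← integral_const_mul]
    congr 1; funext y; ring
  rw [e]
  have hm : AEStronglyMeasurable (fun x : E3 => ∫ y, ρ y / ‖x - y‖) volume := by
    have : AEStronglyMeasurable (fun p : E3 × E3 => ρ p.2 / ‖p.1 - p.2‖) (volume.prod volume) := by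
      refine (AEMeasurable.div ?_ (by fun_prop)).aestronglyMeasurable
      exact h.memL1.aemeasurable.comp_snd
    exact this.integral_prod_right'
  refine (h.memL1.bdd_mul (c := 3 / 5 * (∫ y, ρ y ^ (5 / 3 : ℝ)) + 2 / 5 * Ione + ∫ y, ρ y)
    hm (Filter.Eventually.of_forall fun x => ?_)).congr
    (Filter.Eventually.of_forall fun x => mul_comm _ _)
  rw [Real.norm_of_nonneg (integral_nonneg fun y => div_nonneg (h.nonneg y) (norm_nonneg _))]
  exact coulomb_potential_le h x

lemma direct_lower (h : IsTFDensity N ρ) (R : ℝ) :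
    (∫ x, (closedBall (0 : E3) R).indicator ρ x) ^ 2 / (2 * R)
      ≤ ∫ x, ∫ y, ρ x * ρ y / ‖x - y‖ := by
  set m := ∫ x, (closedBall (0 : E3) R).indicator ρ x with hm
  have hi : Integrable ((closedBall (0 : E3) R).indicator ρ) :=
    h.memL1.indicator measurableSet_closedBall
  have e : m ^ 2 / (2 * R) = ∫ x, (closedBall (0 : E3) R).indicator ρ x * (m / (2 * R)) := by
    rw [integral_mul_const, ← hm]; ring
  rw [e]
  refine integral_mono (hi.mul_const _) (integrable_direct h) fun x => ?_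
  by_cases hx : x ∈ closedBall (0 : E3) R
  · simp only [indicator_of_mem hx]
    have e2 : ∫ y, ρ x * ρ y / ‖x - y‖ = ρ x * ∫ y, ρ y / ‖x - y‖ := by
      rw [← integral_const_mul]
      congr 1; funext y; ring
    rw [e2]
    refine mul_le_mul_of_nonneg_left ?_ (h.nonneg x)
    rw [hm, ← integral_div]
    refine integral_mono_ae (hi.div_const _) (integrable_coulomb h x) ?_
    have hne : ∀ᵐ y : E3, y ≠ x := by
      rw [ae_iff]; simp
    filter_upwards [hne] with y hy
    by_cases hyb : y ∈ closedBall (0 : E3) R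
    · rw [indicator_of_mem hyb]
      have hpos : 0 < ‖x - y‖ := norm_pos_iff.2 (sub_ne_zero.2 hy.symm)
      have hle : ‖x - y‖ ≤ 2 * R := by
        have := norm_sub_le x y
        rw [mem_closedBall_zero_iff] at hx hyb
        linarith
      exact div_le_div_of_nonneg_left (h.nonneg y) hpos hle
    · rw [indicator_of_notMem hyb, zero_div]
      exact div_nonneg (h.nonneg y) (norm_nonneg _)
  · simp only [indicator_of_notMem hx, zero_mul]
    exact integral_nonneg fun y =>
      div_nonneg (mul_nonneg (h.nonneg x) (h.nonneg y)) (norm_nonneg _)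

lemma gamma_ge : (3 / 5 : ℝ) ≤ 3 / 5 * (3 * Real.pi ^ 2) ^ (2 / 3 : ℝ) := by
  have : (1 : ℝ) ≤ (3 * Real.pi ^ 2) ^ (2 / 3 : ℝ) := by
    apply Real.one_le_rpow _ (by norm_num)
    nlinarith [Real.pi_gt_three]
  linarith

/-- Lower bound for the atomic TF functional. -/
lemma tf_atom_lower (h : IsTFDensity N ρ) {z δ K : ℝ} (hz : 0 < z) (hδ : 0 < δ) (hK : 0 < K) :
    -(z ^ 2 * (2 / 5 * Ione * δ ^ (1 / 2 : ℝ) + z * K / δ ^ 2 + N / K))
      ≤ tfFunctional (fun _ : Fin 1 => z) (fun _ => 0) ρ := by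
  have hD := direct_lower h (K / z)
  set m := ∫ x, (closedBall (0 : E3) (K / z)).indicator ρ x with hm
  have hi : Integrable ((closedBall (0 : E3) (K / z)).indicator ρ) :=
    h.memL1.indicator measurableSet_closedBall
  have hV : ∀ x, nucV (fun _ : Fin 1 => z) (fun _ => (0 : E3)) x = z / ‖x‖ := by
    intro x; simp [nucV]
  have hU : nucU (fun _ : Fin 1 => z) (fun _ => (0 : E3)) = 0 := by
    simp [nucU]
  have hpt : ∀ x, z / ‖x‖ * ρ x ≤ 3 / 5 * ρ x ^ (5 / 3 : ℝ)
      + 2 / 5 * (z ^ (5 / 2 : ℝ) * hsing (δ / z) x)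
      + z ^ 2 / δ * (closedBall (0 : E3) (K / z)).indicator ρ x + z ^ 2 / K * ρ x := by
    intro x
    have hρ := h.nonneg x
    have a1 : 0 ≤ ρ x ^ (5 / 3 : ℝ) := Real.rpow_nonneg hρ _
    have a2 : 0 ≤ z ^ (5 / 2 : ℝ) * hsing (δ / z) x :=
      mul_nonneg (Real.rpow_nonneg hz.le _) (hsing_nonneg _ _)
    have a3 : 0 ≤ z ^ 2 / δ * (closedBall (0 : E3) (K / z)).indicator ρ x :=
      mul_nonneg (by positivity) (indicator_nonneg (fun y _ => h.nonneg y) _)
    have a4 : 0 ≤ z ^ 2 / K * ρ x := by positivity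
    by_cases h1 : ‖x‖ < δ / z
    · have := coulomb_pointwise hz.le hρ x h1
      linarith
    · have h1' : δ / z ≤ ‖x‖ := not_lt.1 h1
      have hx : 0 < ‖x‖ := lt_of_lt_of_le (by positivity) h1'
      by_cases h2 : x ∈ closedBall (0 : E3) (K / z)
      · rw [indicator_of_mem h2] at a3 ⊢
        have : z / ‖x‖ ≤ z ^ 2 / δ := by
          rw [div_le_div_iff₀ hx hδ]
          rw [div_le_iff₀ hz] at h1'
          nlinarith
        have := mul_le_mul_of_nonneg_right this hρ
        linarith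
      · rw [mem_closedBall_zero_iff, not_le] at h2
        have : z / ‖x‖ ≤ z ^ 2 / K := by
          rw [div_le_div_iff₀ hx hK]
          rw [div_lt_iff₀ hz] at h2
          nlinarith
        have := mul_le_mul_of_nonneg_right this hρ
        linarith
  have hint : Integrable (fun x => z / ‖x‖ * ρ x) := by
    have := (integrable_coulomb h 0).const_mul z
    refine this.congr (Filter.Eventually.of_forall fun y => ?_)
    simp only [zero_sub, norm_neg]; ring
  have i1 := h.integrable_rpow.const_mul (3 / 5)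
  have i2 := ((integrable_hsing (δ / z)).const_mul (z ^ (5 / 2 : ℝ))).const_mul (2 / 5)
  have i3 := hi.const_mul (z ^ 2 / δ)
  have i4 := h.memL1.const_mul (z ^ 2 / K)
  have hmono := integral_mono hint (((i1.add i2).add i3).add i4) hpt
  simp only [Pi.add_apply] at hmono
  have i12 : Integrable (fun x => 3 / 5 * ρ x ^ (5 / 3 : ℝ)
      + 2 / 5 * (z ^ (5 / 2 : ℝ) * hsing (δ / z) x)) := i1.add i2
  have i123 : Integrable (fun x => 3 / 5 * ρ x ^ (5 / 3 : ℝ)
      + 2 / 5 * (z ^ (5 / 2 : ℝ) * hsing (δ / z) x)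
      + z ^ 2 / δ * (closedBall (0 : E3) (K / z)).indicator ρ x) := i12.add i3
  rw [integral_add i123 i4, integral_add i12 i3, integral_add i1 i2,
    integral_const_mul, integral_const_mul, integral_const_mul, integral_const_mul,
    integral_const_mul, integral_hsing (by positivity), ← hm] at hmono
  have hpow : z ^ (5 / 2 : ℝ) * ((δ / z) ^ (1 / 2 : ℝ) * Ione)
      = z ^ 2 * (Ione * δ ^ (1 / 2 : ℝ)) := by
    rw [Real.div_rpow hδ.le hz.le]
    have : z ^ (5 / 2 : ℝ) = z ^ 2 * z ^ (1 / 2 : ℝ) := by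
      rw [← Real.rpow_natCast, ← Real.rpow_add hz]; norm_num
    rw [this]
    have hp : 0 < z ^ (1 / 2 : ℝ) := Real.rpow_pos_of_pos hz _
    field_simp
  rw [hpow] at hmono
  have hmass : z ^ 2 / K * ∫ x, ρ x ≤ z ^ 2 / K * N :=
    mul_le_mul_of_nonneg_left h.mass (by positivity)
  have hkin : 3 / 5 * ∫ x, ρ x ^ (5 / 3 : ℝ)
      ≤ 3 / 5 * (3 * Real.pi ^ 2) ^ (2 / 3 : ℝ) * ∫ x, ρ x ^ (5 / 3 : ℝ) :=
    mul_le_mul_of_nonneg_right gamma_ge
      (integral_nonneg fun x => Real.rpow_nonneg (h.nonneg x) _)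
  have hsq : z ^ 2 / δ * m ≤ 1 / 2 * (m ^ 2 / (2 * (K / z))) + z ^ 2 * (z * K / δ ^ 2) := by
    have e : 1 / 2 * (m ^ 2 / (2 * (K / z))) + z ^ 2 * (z * K / δ ^ 2) - z ^ 2 / δ * m
        = z / (4 * K) * (m - 2 * K * z / δ) ^ 2 := by
      field_simp; ring
    have : 0 ≤ z / (4 * K) * (m - 2 * K * z / δ) ^ 2 := by positivity
    linarith
  unfold tfFunctional
  simp only [hV, hU]
  have e3 : z ^ 2 / K * (N : ℝ) = z ^ 2 * (N / K) := by ring
  nlinarith

end Pool.Agent.Lib.MP_f7be6d_mp
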